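import Pool.Agent.Lib.MP_405077_mp.Statement
import Pool.Agent.Lib.MP_405077_mp.H94.Fin
import Pool.Agent.Lib.MP_405077_mp.H94.Green
import Pool.Agent.Lib.MP_405077_mp.H94.Level
import Pool.Agent.Lib.MP_405077_mp.H61.Pot
import Pool.Agent.Lib.MP_405077_mp.H76.Kern
import Pool.Agent.Lib.MP_405077_mp.H75.Pos
import Pool.Agent.Lib.MP_405077_mp.H75.Lim
import Pool.Agent.Lib.MP_405077_mp.H40.Exist
import Pool.Agent.Lib.MP_405077_mp.H40.AdmFacts
import Pool.Agent.Lib.MP_405077_mp.H35.Tau
import Pool.Agent.Lib.MP_405077_mp.H8.Virial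
import Pool.Agent.Lib.MP_405077_mp.H78.Conv

/-!
MP_405077_mp: the Benguria-Lieb conjecture on the dilation of the nuclei in Thomas-Fermi theory.
-/

set_option autoImplicit false

open MeasureTheory Set

namespace Pool.Agent.Results.MP_405077_mp.DilationMonotone

open Pool.Agent.Lib.MP_405077_mp

/-- For every configuration of `k ≥ 1` nuclei with positive charges at distinct positions, every
`γ > 0` and every `lam ≥ 0`, the electronic energy `l ↦ e(lam, l)` is nondecreasing on `(0, ∞)`;
moreover the infimum defining `E(lam, l)` is over a nonempty set which is bounded below. -/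
theorem result : ∀ (k : ℕ), 1 ≤ k → ∀ (z : Fin k → ℝ) (R : Fin k → TF.Space), (∀ i, 0 < z i) →
    Function.Injective R → ∀ (γ : ℝ), 0 < γ → ∀ (lam : ℝ), 0 ≤ lam →
    (∀ l : ℝ, 0 < l → (TF.values γ z (fun i => l • R i) lam).Nonempty ∧
      BddBelow (TF.values γ z (fun i => l • R i) lam)) ∧
    (∀ l₁ l₂ : ℝ, 0 < l₁ → l₁ ≤ l₂ →
      TF.e γ z (fun i => l₁ • R i) lam ≤ TF.e γ z (fun i => l₂ • R i) lam) := by
  intro k _ z R hz _ γ hγ lam hlam
  have hPol := H94.polar
  have hP := H61.potStatement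
  have hS := H94.sym hP
  have hG := H94.green hPol hP
  have hK := H76.kern hPol hP hG
  have hPos := H75.pos
  have hAdm := H40.adm_facts
  have hL := H94.level hP hS hG hK
  have hV := H8.virial hP hS hL
  have hE := H40.exist hP hS hPos hAdm
  have hT := H35.tau hP hE hV
  have hLim := H75.lim hP hAdm hT
  have hB := H63.below
  have hC := H78.conv hAdm hPos
  have hLeg := H35.leg hLim hB hC
  refine ⟨fun l _ => H94.values_ok γ z _ hz hγ lam hlam, fun l₁ l₂ h₁ h => ?_⟩
  exact H94.final hLeg γ z R hz hγ lam hlam h₁ (lt_of_lt_of_le h₁ h) h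

end Pool.Agent.Results.MP_405077_mp.DilationMonotone
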